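import Mathlib

/-! Free group words: common prefixes and differences; distinct difference configurations. -/

namespace Pool.Agent.Helper94.FDC

open FreeGroup

variable {α : Type} [DecidableEq α]

theorem exists_split (u : List (α × Bool)) : ∀ v : List (α × Bool), ∃ p a b,
    u = p ++ a ∧ v = p ++ b ∧ ∀ c ∈ a.head?, ∀ e ∈ b.head?, c ≠ e := by
  induction u with
  | nil => intro v; exact ⟨[], [], v, rfl, rfl, by simp⟩
  | cons x u ih =>
    intro v
    cases v with
    | nil => exact ⟨[], x :: u, [], rfl, rfl, by simp⟩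
    | cons y v =>
      by_cases h : x = y
      · subst h
        obtain ⟨p, a, b, h1, h2, h3⟩ := ih v
        exact ⟨x :: p, a, b, by simp [h1], by simp [h2], h3⟩
      · exact ⟨[], x :: u, y :: v, rfl, rfl, by simpa using h⟩

theorem red_left {α : Type} {a b : List (α × Bool)} (h : FreeGroup.IsReduced (a ++ b)) :
    FreeGroup.IsReduced a := (List.isChain_append.1 h).1

theorem red_right {α : Type} {a b : List (α × Bool)} (h : FreeGroup.IsReduced (a ++ b)) :
    FreeGroup.IsReduced b := (List.isChain_append.1 h).2.1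

theorem isReduced_invRev {a : List (α × Bool)} (h : IsReduced a) : IsReduced (invRev a) := by
  rw [isReduced_iff_reduce_eq] at h ⊢
  rw [reduce_invRev, h]

theorem isReduced_junction {a b : List (α × Bool)} (ha : IsReduced a) (hb : IsReduced b)
    (hab : ∀ c ∈ a.head?, ∀ e ∈ b.head?, c ≠ e) : IsReduced (invRev a ++ b) := by
  unfold FreeGroup.IsReduced
  rw [List.isChain_append]
  refine ⟨isReduced_invRev ha, hb, ?_⟩
  intro x hx y hy hxy
  have : (x.1, !x.2) ∈ a.head? := by
    unfold invRev at hx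
    rw [List.getLast?_reverse] at hx
    cases a with
    | nil => simp at hx
    | cons c a =>
      simp only [List.map_cons, List.head?_cons, Option.mem_def, Option.some.injEq] at hx ⊢
      rw [← hx]
      simp
  have h2 := hab _ this y hy
  by_contra hne
  apply h2
  ext
  · exact hxy
  · cases hx2 : x.2 <;> cases hy2 : y.2 <;> simp_all

/-- normal form of a difference -/
theorem diff_split (x y : FreeGroup α) : ∃ p a b, x.toWord = p ++ a ∧ y.toWord = p ++ b ∧
    (x⁻¹ * y).toWord = invRev a ++ b := by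
  obtain ⟨p, a, b, h1, h2, h3⟩ := exists_split x.toWord y.toWord
  refine ⟨p, a, b, h1, h2, ?_⟩
  have hx : IsReduced x.toWord := isReduced_toWord
  have hy : IsReduced y.toWord := isReduced_toWord
  have ha : IsReduced a := red_right (h1 ▸ hx)
  have hb : IsReduced b := red_right (h2 ▸ hy)
  have key : x⁻¹ * y = mk (invRev a ++ b) := by
    rw [← mk_toWord (x := x), ← mk_toWord (x := y), h1, h2, ← mul_mk, ← mul_mk, ← mul_mk, ← inv_mk]
    group
  rw [key, toWord_mk, (isReduced_junction ha hb h3).reduce_eq]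

/-- distinct difference configuration -/
def DDC {G : Type} [Group G] (D : Set G) : Prop :=
  ∀ g₁ ∈ D, ∀ h₁ ∈ D, ∀ g₂ ∈ D, ∀ h₂ ∈ D, g₁ ≠ h₁ → g₂ ≠ h₂ → g₁⁻¹ * h₁ = g₂⁻¹ * h₂ →
    g₁ = g₂ ∧ h₁ = h₂

/-- criterion for sets of words of constant length -/
theorem ddc_of_words (E : Set (List (α × Bool))) (r : ℕ) (hlen : ∀ u ∈ E, u.length = r)
    (hred : ∀ u ∈ E, IsReduced u)
    (hE : ∀ p p' a b : List (α × Bool), p.length = p'.length → a ≠ b → p ++ a ∈ E → p ++ b ∈ E →
      p' ++ a ∈ E → p' ++ b ∈ E → p = p') : DDC (mk '' E) := by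
  rintro _ ⟨u1, hu1, rfl⟩ _ ⟨v1, hv1, rfl⟩ _ ⟨u2, hu2, rfl⟩ _ ⟨v2, hv2, rfl⟩ hne1 hne2 heq
  obtain ⟨p1, a1, b1, e1, e2, e3⟩ := diff_split (mk u1) (mk v1)
  obtain ⟨p2, a2, b2, f1, f2, f3⟩ := diff_split (mk u2) (mk v2)
  rw [toWord_mk, (hred _ hu1).reduce_eq] at e1
  rw [toWord_mk, (hred _ hv1).reduce_eq] at e2
  rw [toWord_mk, (hred _ hu2).reduce_eq] at f1
  rw [toWord_mk, (hred _ hv2).reduce_eq] at f2
  rw [heq, f3] at e3
  subst e1 e2 f1 f2
  have l1 := hlen _ hu1
  have l2 := hlen _ hv1
  have l3 := hlen _ hu2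
  have l4 := hlen _ hv2
  rw [List.length_append] at l1 l2 l3 l4
  have hlen2 := congrArg List.length e3
  rw [List.length_append, List.length_append, invRev_length, invRev_length] at hlen2
  have hab := List.append_inj e3 (by rw [invRev_length, invRev_length]; omega)
  have ha : a2 = a1 := invRev_injective hab.1
  have hb : b2 = b1 := hab.2
  subst ha hb
  have hne : a2 ≠ b2 := by
    rintro rfl
    exact hne1 rfl
  have := hE p1 p2 a2 b2 (by omega) hne hu1 hv1 hu2 hv2
  subst this
  exact ⟨rfl, rfl⟩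

end Pool.Agent.Helper94.FDC
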