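import Mathlib

/-! Random additive hash functions on words over `ZMod p`. -/

namespace Pool.Agent.Helper94.FDC

open Finset

variable {A : Type} [Fintype A] [DecidableEq A] {p : ℕ} [Fact p.Prime] {m : ℕ}

/-- additive hash of a word -/
def yv (a0 : A) (f : Fin m → A → ZMod p) (w : List A) : ZMod p := ∑ i : Fin m, f i (w.getD i a0)

/-- bump -/
def bump (f : Fin m → A → ZMod p) (i0 : Fin m) (c : A) (t : ZMod p) : Fin m → A → ZMod p :=
  fun i a => f i a + if i = i0 ∧ a = c then t else 0

theorem yv_bump (a0 : A) (f : Fin m → A → ZMod p) (i0 : Fin m) (c : A) (t : ZMod p)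
    (w : List A) : yv a0 (bump f i0 c t) w = yv a0 f w + if w.getD i0 a0 = c then t else 0 := by
  unfold yv bump
  rw [Finset.sum_add_distrib]
  congr 1
  by_cases h : w.getD i0 a0 = c
  · rw [if_pos h, Finset.sum_eq_single i0]
    · rw [if_pos ⟨rfl, h⟩]
    · intro i _ hi
      rw [if_neg (by tauto)]
    · intro h; exact absurd (Finset.mem_univ _) h
  · rw [if_neg h]
    apply Finset.sum_eq_zero
    intro i _
    rw [if_neg]
    rintro ⟨rfl, h2⟩
    exact h h2

theorem count_eq (a0 : A) (w w' : List A) (i0 : Fin m) (h : w.getD i0 a0 ≠ w'.getD i0 a0) :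
    ((univ : Finset (Fin m → A → ZMod p)).filter (fun f => yv a0 f w = yv a0 f w')).card * p
      ≤ Fintype.card (Fin m → A → ZMod p) := by
  classical
  have hp : (univ : Finset (ZMod p)).card = p := by rw [Finset.card_univ, ZMod.card]
  calc _ = (((univ : Finset (Fin m → A → ZMod p)).filter
        (fun f => yv a0 f w = yv a0 f w')) ×ˢ (univ : Finset (ZMod p))).card := by
        rw [Finset.card_product, hp]
    _ ≤ (univ : Finset (Fin m → A → ZMod p)).card := by
        refine Finset.card_le_card_of_injOn (fun q => bump q.1 i0 (w.getD i0 a0) q.2)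
          (fun _ _ => Finset.mem_coe.2 (Finset.mem_univ _)) ?_
        rintro ⟨f, t⟩ h1 ⟨g, s⟩ h2 he
        simp only [Finset.coe_product, Set.mem_prod, Finset.mem_coe, Finset.mem_filter,
          Finset.mem_univ, true_and, and_true] at h1 h2
        simp only at he
        have e1 := congrArg (fun F => yv a0 F w - yv a0 F w') he
        simp only [yv_bump, if_true, if_neg (Ne.symm h)] at e1
        have hts : t = s := by
          rw [h1, h2] at e1
          simpa using e1
        subst hts
        have : f = g := by
          funext i a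
          have := congrFun (congrFun he i) a
          unfold bump at this
          exact add_right_cancel this
        subst this
        rfl
    _ = _ := Finset.card_univ

theorem count_zero (a0 : A) (w : List A) (i0 : Fin m) :
    ((univ : Finset (Fin m → A → ZMod p)).filter (fun f => yv a0 f w = 0)).card * p
      ≤ Fintype.card (Fin m → A → ZMod p) := by
  classical
  have hp : (univ : Finset (ZMod p)).card = p := by rw [Finset.card_univ, ZMod.card]
  calc _ = (((univ : Finset (Fin m → A → ZMod p)).filter
        (fun f => yv a0 f w = 0)) ×ˢ (univ : Finset (ZMod p))).card := by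
        rw [Finset.card_product, hp]
    _ ≤ (univ : Finset (Fin m → A → ZMod p)).card := by
        refine Finset.card_le_card_of_injOn (fun q => bump q.1 i0 (w.getD i0 a0) q.2)
          (fun _ _ => Finset.mem_coe.2 (Finset.mem_univ _)) ?_
        rintro ⟨f, t⟩ h1 ⟨g, s⟩ h2 he
        simp only [Finset.coe_product, Set.mem_prod, Finset.mem_coe, Finset.mem_filter,
          Finset.mem_univ, true_and, and_true] at h1 h2
        simp only at he
        have e1 := congrArg (fun F => yv a0 F w) he
        simp only [yv_bump, if_true] at e1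
        have hts : t = s := by
          rw [h1, h2] at e1
          simpa using e1
        subst hts
        have : f = g := by
          funext i a
          have := congrFun (congrFun he i) a
          unfold bump at this
          exact add_right_cancel this
        subst this
        rfl
    _ = _ := Finset.card_univ

/-- existence of a good hash function on at least half of the words -/
theorem exists_hash (a0 : A) (hm : 0 < m) (S : Finset (List A)) (hS : ∀ w ∈ S, w.length = m)
    (hs : 2 * S.card ≤ p) : ∃ f : Fin m → A → ZMod p, ∃ T ⊆ S, S.card ≤ 2 * T.card ∧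
      (∀ w ∈ T, yv a0 f w ≠ 0) ∧ ∀ w ∈ T, ∀ w' ∈ T, yv a0 f w = yv a0 f w' → w = w' := by
  classical
  set F := Fintype.card (Fin m → A → ZMod p) with hF
  have hppos : 0 < p := (Fact.out : p.Prime).pos
  have hFpos : 0 < F := Fintype.card_pos
  -- count of bad events
  let N : (Fin m → A → ZMod p) → ℕ := fun f =>
    (S.filter (fun w => yv a0 f w = 0)).card +
      (S.offDiag.filter (fun q => yv a0 f q.1 = yv a0 f q.2)).card
  have hsum : (∑ f : Fin m → A → ZMod p, N f) * p ≤ S.card * S.card * F := by
    have e1 : ∑ f : Fin m → A → ZMod p, (S.filter (fun w => yv a0 f w = 0)).card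
        = ∑ w ∈ S, ((univ : Finset (Fin m → A → ZMod p)).filter
          (fun f => yv a0 f w = 0)).card := by
      simp only [Finset.card_filter]
      exact Finset.sum_comm
    have e2 : ∑ f : Fin m → A → ZMod p,
        (S.offDiag.filter (fun q => yv a0 f q.1 = yv a0 f q.2)).card
        = ∑ q ∈ S.offDiag, ((univ : Finset (Fin m → A → ZMod p)).filter
          (fun f => yv a0 f q.1 = yv a0 f q.2)).card := by
      simp only [Finset.card_filter]
      exact Finset.sum_comm
    simp only [N]
    rw [Finset.sum_add_distrib, e1, e2, add_mul, Finset.sum_mul, Finset.sum_mul]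
    have b1 : ∑ w ∈ S, ((univ : Finset (Fin m → A → ZMod p)).filter
          (fun f => yv a0 f w = 0)).card * p ≤ ∑ w ∈ S, F :=
      Finset.sum_le_sum (fun w _ => count_zero a0 w ⟨0, hm⟩)
    have b2 : ∑ q ∈ S.offDiag, ((univ : Finset (Fin m → A → ZMod p)).filter
          (fun f => yv a0 f q.1 = yv a0 f q.2)).card * p ≤ ∑ q ∈ S.offDiag, F := by
      apply Finset.sum_le_sum
      rintro ⟨w, w'⟩ hq
      rw [Finset.mem_offDiag] at hq
      obtain ⟨h1, h2, h3⟩ := hq
      simp only at h1 h2 h3
      have l1 := hS _ h1
      have l2 := hS _ h2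
      obtain ⟨i, hi1, hi2⟩ : ∃ i, i < m ∧ w.getD i a0 ≠ w'.getD i a0 := by
        by_contra hcon
        push Not at hcon
        apply h3
        apply List.ext_getElem (by omega)
        intro i hi hi'
        have := hcon i (by omega)
        rw [List.getD_eq_getElem _ _ hi, List.getD_eq_getElem _ _ hi'] at this
        exact this
      exact count_eq a0 w w' ⟨i, hi1⟩ hi2
    rw [Finset.sum_const, smul_eq_mul] at b1 b2
    rw [Finset.offDiag_card] at b2
    have hle : S.card ≤ S.card * S.card := Nat.le_mul_self _
    calc _ ≤ S.card * F + (S.card * S.card - S.card) * F := add_le_add b1 b2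
      _ = (S.card + (S.card * S.card - S.card)) * F := by ring
      _ = _ := by rw [Nat.add_sub_cancel' hle]
  -- choose f with few bad events
  obtain ⟨f, hf⟩ : ∃ f : Fin m → A → ZMod p, N f * p ≤ S.card * S.card := by
    by_contra hcon
    push Not at hcon
    have : ∑ f : Fin m → A → ZMod p, (S.card * S.card) < ∑ f : Fin m → A → ZMod p, N f * p := by
      apply Finset.sum_lt_sum_of_nonempty
      · exact ⟨fun _ _ => 0, Finset.mem_univ _⟩
      · intro f _; exact hcon f
    rw [Finset.sum_const, smul_eq_mul, Finset.card_univ, ← Finset.sum_mul] at this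
    rw [← hF] at this
    nlinarith
  have hf2 : 2 * N f ≤ S.card := by
    have h1 : N f * p * 2 ≤ S.card * p := by nlinarith
    have h2 : (2 * N f) * p ≤ S.card * p := by nlinarith
    exact Nat.le_of_mul_le_mul_right h2 hppos
  refine ⟨f, S.filter (fun w => yv a0 f w ≠ 0 ∧ ∀ w' ∈ S, w ≠ w' → yv a0 f w ≠ yv a0 f w'),
    Finset.filter_subset _ _, ?_, ?_, ?_⟩
  · have hsplit := Finset.card_filter_add_card_filter_not (s := S)
      (fun w => yv a0 f w ≠ 0 ∧ ∀ w' ∈ S, w ≠ w' → yv a0 f w ≠ yv a0 f w')
    have hbad : (S.filter (fun w => ¬ (yv a0 f w ≠ 0 ∧ ∀ w' ∈ S, w ≠ w' →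
        yv a0 f w ≠ yv a0 f w'))).card ≤ N f := by
      calc _ ≤ (S.filter (fun w => yv a0 f w = 0) ∪
            (S.offDiag.filter (fun q => yv a0 f q.1 = yv a0 f q.2)).image Prod.fst).card := by
            apply Finset.card_le_card
            intro w hw
            rw [Finset.mem_filter] at hw
            rw [Finset.mem_union, Finset.mem_filter, Finset.mem_image]
            by_cases h0 : yv a0 f w = 0
            · exact Or.inl ⟨hw.1, h0⟩
            · right
              have := hw.2
              push Not at this
              obtain ⟨w', h1, h2, h3⟩ := this h0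
              exact ⟨(w, w'), by
                rw [Finset.mem_filter, Finset.mem_offDiag]
                exact ⟨⟨hw.1, h1, h2⟩, h3⟩, rfl⟩
        _ ≤ _ := (Finset.card_union_le _ _).trans
            (add_le_add le_rfl Finset.card_image_le)
    omega
  · intro w hw
    exact (Finset.mem_filter.1 hw).2.1
  · intro w hw w' hw' he
    by_contra hne
    exact (Finset.mem_filter.1 hw).2.2 w' (Finset.mem_filter.1 hw').1 hne he

end Pool.Agent.Helper94.FDC
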