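import Mathlib
import Pool.Agent.Helper94.FDC.Basic
import Pool.Agent.Helper94.FDC.Hash

/-! Large distinct difference configurations in free groups. -/

namespace Pool.Agent.Helper94.FDC

open Finset FreeGroup

section words

variable {n : ℕ}

/-- `b` may follow `a` in a reduced word -/
def R (a b : Fin n × Bool) : Prop := a.1 = b.1 → a.2 = b.2

instance (a b : Fin n × Bool) : Decidable (R a b) := by unfold R; infer_instance

/-- words `w` of length `m` such that `a w c` is reduced -/
def B (c : Fin n × Bool) : ℕ → Fin n × Bool → Finset (List (Fin n × Bool))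
  | 0, a => if R a c then {[]} else ∅
  | m + 1, a => (univ.filter (fun b => R a b)).biUnion (fun b => (B c m b).image (List.cons b))

theorem B_mem (c : Fin n × Bool) : ∀ (m : ℕ) (a : Fin n × Bool) (w : List (Fin n × Bool)),
    w ∈ B c m a → w.length = m ∧ List.IsChain R (a :: (w ++ [c])) := by
  intro m
  induction m with
  | zero =>
    intro a w hw
    unfold B at hw
    split_ifs at hw with h
    · rw [Finset.mem_singleton] at hw
      subst hw
      exact ⟨rfl, by simpa using h⟩
    · simp at hw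
  | succ m ih =>
    intro a w hw
    unfold B at hw
    rw [Finset.mem_biUnion] at hw
    obtain ⟨b, hb, hw⟩ := hw
    rw [Finset.mem_filter] at hb
    rw [Finset.mem_image] at hw
    obtain ⟨w', hw', rfl⟩ := hw
    obtain ⟨h1, h2⟩ := ih b w' hw'
    refine ⟨by simp [h1], ?_⟩
    rw [List.cons_append, List.isChain_cons_cons]
    exact ⟨hb.2, h2⟩

theorem card_next (a : Fin n × Bool) : (univ.filter (fun b : Fin n × Bool => R a b)).card
    = 2 * n - 1 := by
  have : univ.filter (fun b : Fin n × Bool => R a b) = univ.erase (a.1, !a.2) := by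
    ext b
    rw [Finset.mem_filter, Finset.mem_erase]
    unfold R
    constructor
    · rintro ⟨-, h⟩
      refine ⟨?_, Finset.mem_univ _⟩
      rintro rfl
      have := h rfl
      simp at this
    · rintro ⟨h, -⟩
      refine ⟨Finset.mem_univ _, ?_⟩
      intro h1
      by_contra h2
      apply h
      ext
      · rw [h1]
      · cases ha : a.2 <;> cases hb : b.2 <;> simp_all
  rw [this, Finset.card_erase_of_mem (Finset.mem_univ _), Finset.card_univ]
  simp [mul_comm]

theorem card_B_succ (c : Fin n × Bool) (m : ℕ) (a : Fin n × Bool) :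
    (B c (m + 1) a).card = ∑ b ∈ univ.filter (fun b => R a b), (B c m b).card := by
  rw [B, Finset.card_biUnion]
  · apply Finset.sum_congr rfl
    intro b _
    exact Finset.card_image_of_injective _ (List.cons_injective)
  · intro x _ y _ hxy
    rw [Function.onFun, Finset.disjoint_left]
    intro w hw hw'
    rw [Finset.mem_image] at hw hw'
    obtain ⟨u, -, rfl⟩ := hw
    obtain ⟨v, -, h⟩ := hw'
    rw [List.cons.injEq] at h
    exact hxy h.1.symm

theorem card_B (hn : 2 ≤ n) (c : Fin n × Bool) : ∀ (m : ℕ) (a : Fin n × Bool),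
    (2 * n - 1) ^ m ≤ (B c (m + 1) a).card := by
  intro m
  induction m with
  | zero =>
    intro a
    rw [pow_zero, Nat.one_le_iff_ne_zero, Finset.card_ne_zero]
    -- find a letter different from a⁻¹ and c⁻¹
    obtain ⟨b, hb⟩ : ∃ b : Fin n × Bool, b ∉ ({(a.1, !a.2), (c.1, !c.2)} : Finset _) := by
      by_contra hcon
      push Not at hcon
      have h1 : (univ : Finset (Fin n × Bool)) ⊆ {(a.1, !a.2), (c.1, !c.2)} :=
        fun b _ => hcon b
      have h2 := Finset.card_le_card h1
      have h3 := (Finset.card_le_two : ({(a.1, !a.2), (c.1, !c.2)} :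
        Finset (Fin n × Bool)).card ≤ 2)
      rw [Finset.card_univ, Fintype.card_prod, Fintype.card_fin, Fintype.card_bool] at h2
      omega
    rw [Finset.mem_insert, Finset.mem_singleton, not_or] at hb
    have hab : R a b := by
      intro h1
      by_contra h2
      apply hb.1
      ext
      · rw [h1]
      · cases ha : a.2 <;> cases hb : b.2 <;> simp_all
    have hbc : R b c := by
      intro h1
      by_contra h2
      apply hb.2
      ext
      · rw [h1]
      · cases ha : c.2 <;> cases hb : b.2 <;> simp_all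
    refine ⟨[b], ?_⟩
    rw [B, Finset.mem_biUnion]
    refine ⟨b, by simpa using hab, ?_⟩
    rw [B, if_pos hbc]
    simp
  | succ m ih =>
    intro a
    rw [card_B_succ]
    calc (2 * n - 1) ^ (m + 1) = ∑ b ∈ univ.filter (fun b => R a b), (2 * n - 1) ^ m := by
          rw [Finset.sum_const, card_next, smul_eq_mul, pow_succ, mul_comm]
      _ ≤ _ := Finset.sum_le_sum (fun b _ => ih b)

end words

theorem isReduced_of_chain {n : ℕ} {L : List (Fin n × Bool)} (h : List.IsChain R L) :
    FreeGroup.IsReduced L := h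

/-- the combinatorial heart -/
theorem comb {A : Type} {p : ℕ} [Fact p.Prime] {m : ℕ}
    (c0 : A) (f : Fin m → A → ZMod p) (T : Finset (List A)) (hT : ∀ w ∈ T, w.length = m)
    (hT0 : ∀ w ∈ T, yv c0 f w ≠ 0)
    (hTi : ∀ w ∈ T, ∀ w' ∈ T, yv c0 f w = yv c0 f w' → w = w')
    (ζ : ZMod p → List A) (hζl : ∀ x, (ζ x).length = m) (hζ : Function.Injective ζ)
    (U : ZMod p → List A → List A)
    (hU : ∀ x w, U x w = ζ x ++ c0 :: (w ++ c0 :: ζ (x * yv c0 f w)))
    (q q' a b : List A) (hq : q.length = q'.length) (hab : a ≠ b)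
    (x1 x2 x3 x4 : ZMod p) (w1 w2 w3 w4 : List A)
    (hw1 : w1 ∈ T) (hw2 : w2 ∈ T) (hw3 : w3 ∈ T) (hw4 : w4 ∈ T)
    (hx1 : x1 ≠ 0) (h1 : q ++ a = U x1 w1) (h2 : q ++ b = U x2 w2) (h3 : q' ++ a = U x3 w3)
    (h4 : q' ++ b = U x4 w4) : q = q' := by
  have l1 := hT _ hw1
  have l2 := hT _ hw2
  have l3 := hT _ hw3
  have l4 := hT _ hw4
  -- it suffices that the two first words agree
  suffices hsuff : U x1 w1 = U x3 w3 by
    rw [← h1, ← h3] at hsuff
    exact List.append_cancel_right hsuff
  have hne : U x1 w1 ≠ U x2 w2 := by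
    rw [← h1, ← h2]
    intro h
    exact hab (List.append_cancel_left h)
  -- drop lemmas
  have hdropm : ∀ x w, (U x w).drop m = c0 :: (w ++ c0 :: ζ (x * yv c0 f w)) := by
    intro x w
    rw [hU, List.drop_append, hζl, List.drop_eq_nil_of_le (by rw [hζl])]
    simp
  have hdrop2 : ∀ x w, w.length = m → (U x w).drop (2 * m + 1) = c0 :: ζ (x * yv c0 f w) := by
    intro x w hw
    have : (U x w).drop (2 * m + 1) = ((U x w).drop m).drop (m + 1) := by
      rw [List.drop_drop]; congr 1; omega
    rw [this, hdropm, List.drop_succ_cons, List.drop_append, hw,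
      List.drop_eq_nil_of_le (by rw [hw])]
    simp
  have htakem : ∀ x w, (U x w).take m = ζ x := by
    intro x w
    rw [hU, List.take_append, hζl, List.take_of_length_le (by rw [hζl])]
    simp
  have hdropEq : ∀ t, q.length ≤ t → (U x1 w1).drop t = (U x3 w3).drop t ∧
      (U x2 w2).drop t = (U x4 w4).drop t := by
    intro t ht
    have e : ∀ (q a : List A), q.length ≤ t → (q ++ a).drop t = a.drop (t - q.length) := by
      intro q a h
      rw [List.drop_append, List.drop_eq_nil_of_le h, List.nil_append]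
    have ht' : q'.length ≤ t := hq ▸ ht
    rw [← h1, ← h2, ← h3, ← h4, e q a ht, e q' a ht', e q b ht, e q' b ht', hq]
    exact ⟨rfl, rfl⟩
  have htakeEq : ∀ t, t ≤ q.length → (U x1 w1).take t = (U x2 w2).take t ∧
      (U x3 w3).take t = (U x4 w4).take t := by
    intro t ht
    rw [← h1, ← h2, ← h3, ← h4, List.take_append_of_le_length ht,
      List.take_append_of_le_length ht, List.take_append_of_le_length (hq ▸ ht),
      List.take_append_of_le_length (hq ▸ ht)]
    simp
  rcases Nat.lt_or_ge m q.length with hc | hc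
  · -- the first blocks agree
    obtain ⟨t1, t2⟩ := htakeEq m hc.le
    rw [htakem, htakem] at t1 t2
    have hx12 : x1 = x2 := hζ t1
    have hx34 : x3 = x4 := hζ t2
    rcases Nat.lt_or_ge (2 * m + 1) q.length with hc2 | hc2
    · -- middle blocks agree as well
      exfalso
      apply hne
      obtain ⟨t3, -⟩ := htakeEq (2 * m + 1) hc2.le
      have hw : w1 = w2 := by
        have e : ∀ x w, w.length = m → ((U x w).take (2 * m + 1)).drop (m + 1) = w := by
          intro x w hw
          rw [hU, show 2 * m + 1 = (ζ x).length + (m + 1) by rw [hζl]; omega,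
            List.take_length_add_append, List.drop_append, hζl,
            List.drop_eq_nil_of_le (by rw [hζl]; omega)]
          simp [List.take_append, hw]
        have := congrArg (List.drop (m + 1)) t3
        rwa [e _ _ l1, e _ _ l2] at this
      rw [hx12, hw]
    · -- the cut is inside the middle block
      obtain ⟨d1, d2⟩ := hdropEq (2 * m + 1) hc2
      rw [hdrop2 _ _ l1, hdrop2 _ _ l3, List.cons.injEq] at d1
      rw [hdrop2 _ _ l2, hdrop2 _ _ l4, List.cons.injEq] at d2
      have z1 : x1 * yv c0 f w1 = x3 * yv c0 f w3 := hζ d1.2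
      have z2 : x2 * yv c0 f w2 = x4 * yv c0 f w4 := hζ d2.2
      -- letters of the middle block
      have hlet : ∀ x w, w.length = m → ∀ i, i < m →
          w.getD i c0 = (U x w).getD (m + 1 + i) c0 := by
        intro x w hw i hi
        rw [hU, List.getD_append_right _ _ _ _ (by rw [hζl]; omega), hζl,
          show m + 1 + i - m = i + 1 by omega, List.getD_cons_succ,
          List.getD_append _ _ _ _ (by omega)]
      have hdiff : yv c0 f w1 - yv c0 f w2 = yv c0 f w3 - yv c0 f w4 := by
        unfold yv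
        rw [← Finset.sum_sub_distrib, ← Finset.sum_sub_distrib]
        apply Finset.sum_congr rfl
        intro i _
        rw [hlet x1 w1 l1 i i.2, hlet x2 w2 l2 i i.2, hlet x3 w3 l3 i i.2, hlet x4 w4 l4 i i.2,
          ← h1, ← h2, ← h3, ← h4]
        rcases Nat.lt_or_ge (m + 1 + i) q.length with hi | hi
        · rw [List.getD_append _ _ _ _ hi, List.getD_append _ _ _ _ hi,
            List.getD_append _ _ _ _ (hq ▸ hi), List.getD_append _ _ _ _ (hq ▸ hi)]
          simp
        · rw [List.getD_append_right _ _ _ _ hi, List.getD_append_right _ _ _ _ hi,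
            List.getD_append_right _ _ _ _ (hq ▸ hi), List.getD_append_right _ _ _ _ (hq ▸ hi), hq]
      subst hx12 hx34
      have hprod : (x1 - x3) * (yv c0 f w1 - yv c0 f w2) = 0 := by
        have : x3 * (yv c0 f w1 - yv c0 f w2) = x3 * (yv c0 f w3 - yv c0 f w4) := by rw [hdiff]
        linear_combination z1 - z2 - this
      rcases mul_eq_zero.1 hprod with h | h
      · have hx : x1 = x3 := sub_eq_zero.1 h
        subst hx
        have hy := mul_left_cancel₀ hx1 z1
        rw [hTi _ hw1 _ hw3 hy]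
      · exfalso
        apply hne
        rw [hTi _ hw1 _ hw2 (sub_eq_zero.1 h)]
  · -- the cut is in the first block
    obtain ⟨d1, -⟩ := hdropEq m hc
    rw [hdropm, hdropm, List.cons.injEq] at d1
    have e := List.append_inj d1.2 (by rw [l1, l3])
    obtain ⟨e1, e2⟩ := e
    subst e1
    rw [List.cons.injEq] at e2
    have z := hζ e2.2
    have hx := mul_right_cancel₀ (hT0 _ hw1) z
    rw [hx]

theorem lower_main (n : ℕ) (hn : 2 ≤ n) (m' : ℕ) : ∃ D : Finset (FreeGroup (Fin n)),
    DDC (D : Set (FreeGroup (Fin n))) ∧ (∀ g ∈ D, ∀ h ∈ D, norm (g⁻¹ * h) ≤ 6 * m' + 10) ∧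
      (2 * n - 1) ^ (2 * m') ≤ 64 * D.card := by
  classical
  rcases Nat.eq_zero_or_pos m' with h0 | hm'
  · subst h0
    refine ⟨{1}, ?_, ?_, by simp⟩
    · intro g hg h hh
      simp only [Finset.coe_singleton, Set.mem_singleton_iff] at hg hh
      intro _ _ _ _ hne
      exact absurd (hg.trans hh.symm) hne
    · intro g hg h hh
      rw [Finset.mem_singleton] at hg hh
      subst hg hh
      simp
  set k := 2 * n - 1 with hk
  have hk3 : 3 ≤ k := by omega
  set Q := k ^ m' with hQ
  have hQ3 : 3 ≤ Q := by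
    calc 3 ≤ k ^ 1 := by rw [pow_one]; exact hk3
      _ ≤ k ^ m' := Nat.pow_le_pow_right (by omega) hm'
  obtain ⟨p, hp, hp1, hp2⟩ := Nat.exists_prime_lt_and_le_two_mul (Q / 2) (by omega)
  have : Fact p.Prime := ⟨hp⟩
  have hpos : 0 < n := by omega
  let c0 : Fin n × Bool := (⟨0, hpos⟩, true)
  set m := m' + 1 with hm
  set W := B c0 m c0 with hW
  have hWcard : Q ≤ W.card := card_B hn c0 m' c0
  have hWlen : ∀ w ∈ W, w.length = m := fun w hw => (B_mem c0 m c0 w hw).1
  have hWch : ∀ w ∈ W, List.IsChain R (c0 :: (w ++ [c0])) := fun w hw => (B_mem c0 m c0 w hw).2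
  have hpW : p ≤ W.card := by omega
  obtain ⟨ζ0⟩ : Nonempty (ZMod p ↪ W) := by
    apply Function.Embedding.nonempty_of_card_le
    rw [ZMod.card, Fintype.card_coe]
    exact hpW
  let ζ : ZMod p → List (Fin n × Bool) := fun x => (ζ0 x : List (Fin n × Bool))
  have hζW : ∀ x, ζ x ∈ W := fun x => (ζ0 x).2
  have hζ : Function.Injective ζ := fun x y h => ζ0.injective (Subtype.ext h)
  obtain ⟨S, hSW, hScard⟩ := Finset.exists_subset_card_eq (s := W) (n := p / 2) (by omega)
  obtain ⟨f, T, hTS, hTcard, hT0, hTi⟩ := exists_hash (p := p) (m := m) c0 (by omega) S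
    (fun w hw => hWlen w (hSW hw)) (by rw [hScard]; omega)
  have hTW : ∀ w ∈ T, w ∈ W := fun w hw => hSW (hTS hw)
  let U : ZMod p → List (Fin n × Bool) → List (Fin n × Bool) :=
    fun x w => ζ x ++ c0 :: (w ++ c0 :: ζ (x * yv c0 f w))
  have hUred : ∀ x, ∀ w ∈ T, FreeGroup.IsReduced (U x w) := by
    intro x w hw
    have r1 : FreeGroup.IsReduced (ζ x ++ [c0]) :=
      red_right (a := [c0]) (isReduced_of_chain (hWch _ (hζW x)))
    have r2 : FreeGroup.IsReduced ([c0] ++ (w ++ [c0])) :=
      isReduced_of_chain (hWch _ (hTW w hw))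
    have r3 : FreeGroup.IsReduced ([c0] ++ ζ (x * yv c0 f w)) :=
      red_left (b := [c0]) (by
        have := isReduced_of_chain (hWch _ (hζW (x * yv c0 f w)))
        simpa using this)
    have s1 := r1.append_overlap r2 (by simp)
    have s1' : FreeGroup.IsReduced ((ζ x ++ [c0] ++ w) ++ [c0]) := by
      simpa [List.append_assoc] using s1
    have s2 := s1'.append_overlap r3 (by simp)
    simpa [U, List.append_assoc] using s2
  have hUlen : ∀ x, ∀ w ∈ T, (U x w).length = 3 * m + 2 := by
    intro x w hw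
    have e1 := hWlen _ (hζW x)
    have e2 := hWlen _ (hTW w hw)
    have e3 := hWlen _ (hζW (x * yv c0 f w))
    simp only [U, List.length_append, List.length_cons]
    omega
  have hUinj : ∀ x, ∀ w ∈ T, ∀ x', ∀ w' ∈ T, U x w = U x' w' → x = x' ∧ w = w' := by
    intro x w hw x' w' hw' h
    have e1 := hWlen _ (hζW x)
    have e1' := hWlen _ (hζW x')
    have e2 := hWlen _ (hTW w hw)
    have e2' := hWlen _ (hTW w' hw')
    obtain ⟨a1, a2⟩ := List.append_inj h (by rw [e1, e1'])
    rw [List.cons.injEq] at a2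
    obtain ⟨b1, -⟩ := List.append_inj a2.2 (by rw [e2, e2'])
    exact ⟨hζ a1, b1⟩
  let P : Finset (ZMod p × List (Fin n × Bool)) := (univ.erase 0) ×ˢ T
  refine ⟨P.image (fun q => mk (U q.1 q.2)), ?_, ?_, ?_⟩
  · -- DDC
    have hset : ((P.image (fun q => mk (U q.1 q.2)) : Finset (FreeGroup (Fin n))) :
        Set (FreeGroup (Fin n))) = mk '' {u | ∃ x, ∃ w ∈ T, x ≠ 0 ∧ u = U x w} := by
      ext g
      simp only [Finset.coe_image, Set.mem_image, Finset.mem_coe, Set.mem_ofPred_eq]
      constructor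
      · rintro ⟨⟨x, w⟩, hq, rfl⟩
        rw [Finset.mem_product, Finset.mem_erase] at hq
        exact ⟨U x w, ⟨x, w, hq.2, hq.1.1, rfl⟩, rfl⟩
      · rintro ⟨u, ⟨x, w, hw, hx, rfl⟩, rfl⟩
        refine ⟨(x, w), ?_, rfl⟩
        rw [Finset.mem_product, Finset.mem_erase]
        exact ⟨⟨hx, Finset.mem_univ _⟩, hw⟩
    rw [hset]
    apply ddc_of_words _ (3 * m + 2)
    · rintro u ⟨x, w, hw, -, rfl⟩
      exact hUlen x w hw
    · rintro u ⟨x, w, hw, -, rfl⟩
      exact hUred x w hw
    · rintro q q' a b hq hab ⟨x1, w1, hw1, hx1, h1⟩ ⟨x2, w2, hw2, -, h2⟩ ⟨x3, w3, hw3, -, h3⟩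
        ⟨x4, w4, hw4, -, h4⟩
      exact comb c0 f T (fun w hw => hWlen _ (hTW w hw)) hT0 hTi ζ (fun x => hWlen _ (hζW x)) hζ
        U (fun _ _ => rfl) q q' a b hq hab x1 x2 x3 x4 w1 w2 w3 w4 hw1 hw2 hw3 hw4 hx1 h1 h2 h3 h4
  · intro g hg h hh
    rw [Finset.mem_image] at hg hh
    obtain ⟨⟨x, w⟩, hq, rfl⟩ := hg
    obtain ⟨⟨x', w'⟩, hq', rfl⟩ := hh
    rw [Finset.mem_product] at hq hq'
    have n1 : norm (mk (U x w)) = 3 * m + 2 := by
      unfold FreeGroup.norm
      rw [toWord_mk, (hUred x w hq.2).reduce_eq, hUlen x w hq.2]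
    have n2 : norm (mk (U x' w')) = 3 * m + 2 := by
      unfold FreeGroup.norm
      rw [toWord_mk, (hUred x' w' hq'.2).reduce_eq, hUlen x' w' hq'.2]
    refine (FreeGroup.norm_mul_le _ _).trans ?_
    rw [FreeGroup.norm_inv_eq, n1, n2]
    omega
  · have hPcard : (P.image (fun q => mk (U q.1 q.2))).card = (p - 1) * T.card := by
      rw [Finset.card_image_of_injOn, Finset.card_product,
        Finset.card_erase_of_mem (Finset.mem_univ _), Finset.card_univ, ZMod.card]
      rintro ⟨x, w⟩ h1 ⟨x', w'⟩ h2 he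
      rw [Finset.mem_coe, Finset.mem_product] at h1 h2
      simp only at he
      have e := congrArg toWord he
      rw [toWord_mk, toWord_mk, (hUred x w h1.2).reduce_eq, (hUred x' w' h2.2).reduce_eq] at e
      obtain ⟨a1, a2⟩ := hUinj x w h1.2 x' w' h2.2 e
      subst a1 a2
      rfl
    rw [hPcard]
    rw [hScard] at hTcard
    have e1 : k ^ (2 * m') = Q * Q := by rw [hQ, two_mul, pow_add]
    rw [e1]
    have hp2' : 2 ≤ p := hp.two_le
    have hq2 : Q ≤ 2 * p := by omega
    -- (p-1) ≥ p/2, T.card ≥ (p-1)/4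
    have a1 : p ≤ 2 * (p - 1) := by omega
    have a2 : p - 1 ≤ 2 * (p / 2) := by omega
    have a3 : p ≤ 8 * T.card := by omega
    calc Q * Q ≤ (2 * p) * (2 * p) := Nat.mul_le_mul hq2 hq2
      _ = 4 * (p * p) := by ring
      _ ≤ 4 * ((2 * (p - 1)) * (8 * T.card)) := Nat.mul_le_mul_left _ (Nat.mul_le_mul a1 a3)
      _ = 64 * ((p - 1) * T.card) := by ring

end Pool.Agent.Helper94.FDC
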