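import Mathlib
import Pool.Agent.Helper94.FDC.Lower

/-! Upper bound for distinct difference configurations in free groups. -/

namespace Pool.Agent.Helper94.FDC

open Finset FreeGroup

section ball

variable {n : ℕ}

/-- words `w` of length at most `t` such that `a w` is reduced -/
def Rle : ℕ → Fin n × Bool → Finset (List (Fin n × Bool))
  | 0, _ => {[]}
  | t + 1, a => insert []
      ((univ.filter (fun b => R a b)).biUnion (fun b => (Rle t b).image (List.cons b)))

theorem mem_Rle : ∀ (t : ℕ) (a : Fin n × Bool) (w : List (Fin n × Bool)),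
    w.length ≤ t → List.IsChain R (a :: w) → w ∈ Rle t a := by
  intro t
  induction t with
  | zero =>
    intro a w hw _
    have : w = [] := List.length_eq_zero_iff.1 (by omega)
    subst this
    simp [Rle]
  | succ t ih =>
    intro a w hw hc
    cases w with
    | nil => simp [Rle]
    | cons b w =>
      rw [List.isChain_cons_cons] at hc
      rw [Rle, Finset.mem_insert]
      right
      rw [Finset.mem_biUnion]
      refine ⟨b, by simpa using hc.1, ?_⟩
      rw [Finset.mem_image]
      exact ⟨w, ih b w (by simpa using hw) hc.2, rfl⟩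

theorem card_Rle (hn : 2 ≤ n) : ∀ (t : ℕ) (a : Fin n × Bool),
    (Rle t a).card + 1 ≤ 2 * (2 * n - 1) ^ t := by
  intro t
  induction t with
  | zero => intro a; simp [Rle]
  | succ t ih =>
    intro a
    have h1 : ((univ.filter (fun b => R a b)).biUnion
        (fun b => (Rle t b).image (List.cons b))).card ≤ (2 * n - 1) * (2 * (2 * n - 1) ^ t - 1) := by
      refine Finset.card_biUnion_le.trans ?_
      calc _ ≤ ∑ b ∈ univ.filter (fun b => R a b), (2 * (2 * n - 1) ^ t - 1) := by
            apply Finset.sum_le_sum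
            intro b _
            have := ih b
            exact Finset.card_image_le.trans (by omega)
        _ = _ := by rw [Finset.sum_const, card_next, smul_eq_mul]
    have h2 : (Rle (t + 1) a).card ≤ _ := Finset.card_insert_le _ _
    have h3 : 1 ≤ (2 * n - 1) ^ t := Nat.one_le_pow _ _ (by omega)
    obtain ⟨k, hk⟩ : ∃ k, 2 * n - 1 = k + 2 := ⟨2 * n - 3, by omega⟩
    rw [hk] at h1 h3 ⊢
    obtain ⟨q, hq⟩ : ∃ q, (k + 2) ^ t = q + 1 := ⟨(k + 2) ^ t - 1, by omega⟩
    rw [pow_succ, hq]
    rw [hq, show 2 * (q + 1) - 1 = 2 * q + 1 by omega] at h1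
    have h4 : (k + 2) * (2 * q + 1) + 2 ≤ 2 * ((q + 1) * (k + 2)) := by nlinarith
    omega

/-- all reduced words of length at most `t` -/
def Words (n t : ℕ) : Finset (List (Fin n × Bool)) := univ.biUnion (fun a => Rle t a)

theorem mem_Words {t : ℕ} {w : List (Fin n × Bool)} (hpos : 0 < n) (hw : w.length ≤ t)
    (hr : FreeGroup.IsReduced w) : w ∈ Words n t := by
  unfold Words
  rw [Finset.mem_biUnion]
  cases w with
  | nil =>
    refine ⟨(⟨0, hpos⟩, true), Finset.mem_univ _, ?_⟩
    exact mem_Rle t _ [] (by simp) (by simp)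
  | cons b w =>
    refine ⟨b, Finset.mem_univ _, mem_Rle t b (b :: w) hw ?_⟩
    rw [List.isChain_cons_cons]
    exact ⟨fun _ => rfl, hr⟩

theorem card_Words (hn : 2 ≤ n) (t : ℕ) : (Words n t).card ≤ 4 * n * (2 * n - 1) ^ t := by
  unfold Words
  refine Finset.card_biUnion_le.trans ?_
  calc _ ≤ ∑ a : Fin n × Bool, 2 * (2 * n - 1) ^ t := by
        apply Finset.sum_le_sum
        intro a _
        have := card_Rle hn t a
        omega
    _ = _ := by
        rw [Finset.sum_const, Finset.card_univ, Fintype.card_prod, Fintype.card_fin,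
          Fintype.card_bool, smul_eq_mul]
        ring

end ball

theorem norm_eq_length {α : Type} [DecidableEq α] (x : FreeGroup α) :
    FreeGroup.norm x = x.toWord.length := rfl

/-- a set of diameter at most `d` lies in a ball of radius `r ≥ d / 2` -/
theorem exists_center {α : Type} [DecidableEq α] (D : Finset (FreeGroup α)) (d r : ℕ)
    (hr : d ≤ 2 * r) (hD : ∀ g ∈ D, ∀ h ∈ D, FreeGroup.norm (g⁻¹ * h) ≤ d) :
    ∃ g0, ∀ h ∈ D, FreeGroup.norm (g0⁻¹ * h) ≤ r := by
  rcases D.eq_empty_or_nonempty with rfl | ⟨g1, hg1⟩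
  · exact ⟨1, by simp⟩
  obtain ⟨g2, hg2, hmax⟩ := Finset.exists_max_image D (fun g => FreeGroup.norm (g1⁻¹ * g))
    ⟨g1, hg1⟩
  set a := (g1⁻¹ * g2).toWord with ha
  set L := a.length with hL
  set t := L - r with ht
  refine ⟨g1 * mk (a.take t), ?_⟩
  intro h hh
  have hb1 : FreeGroup.norm (g1⁻¹ * h) ≤ L := hmax h hh
  rw [norm_eq_length] at hb1
  obtain ⟨p, a', b', e1, e2, e3⟩ := diff_split (g1⁻¹ * g2) (g1⁻¹ * h)
  have hdist : (g1⁻¹ * g2)⁻¹ * (g1⁻¹ * h) = g2⁻¹ * h := by group
  rw [hdist] at e3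
  have hd := hD g2 hg2 h hh
  rw [norm_eq_length, e3, List.length_append, invRev_length] at hd
  rw [← ha] at e1
  have l1 := congrArg List.length e1
  rw [List.length_append, ← hL] at l1
  rw [e2, List.length_append] at hb1
  have hgoal : (g1 * mk (a.take t))⁻¹ * h = (mk (a.take t))⁻¹ * mk (p ++ b') := by
    rw [← e2, mk_toWord]; group
  rw [hgoal]
  rcases le_total t p.length with hs | hs
  · have h1 : a.take t = p.take t := by
      rw [e1, List.take_append_of_le_length hs]
    have h2 : (mk (a.take t))⁻¹ * mk (p ++ b') = mk (p.drop t ++ b') := by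
      rw [h1]
      conv_lhs => rw [← List.take_append_drop t p]
      rw [List.take_append_drop, ← mul_mk]
      nth_rewrite 2 [← List.take_append_drop t p]
      rw [← mul_mk, ← mul_mk]
      group
    rw [h2]
    refine (FreeGroup.norm_mk_le).trans ?_
    rw [List.length_append, List.length_drop]
    omega
  · have h1 : a.take t = p ++ a'.take (t - p.length) := by
      rw [e1, List.take_append, List.take_of_length_le hs]
    have h2 : (mk (a.take t))⁻¹ * mk (p ++ b')
        = mk (invRev (a'.take (t - p.length)) ++ b') := by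
      rw [h1, ← mul_mk, ← mul_mk, ← mul_mk, ← inv_mk]
      group
    rw [h2]
    refine (FreeGroup.norm_mk_le).trans ?_
    rw [List.length_append, invRev_length, List.length_take]
    omega

theorem card_sq_le {β γ : Type} [DecidableEq β] [DecidableEq γ] (D : Finset β) (c : β → γ)
    (Cod : Finset γ) (hc : ∀ x ∈ D, c x ∈ Cod) :
    D.card ^ 2 ≤ Cod.card * (D.card + (D.offDiag.filter (fun q => c q.1 = c q.2)).card) := by
  have h1 : D.card = ∑ y ∈ Cod, (D.filter (fun x => c x = y)).card :=
    Finset.card_eq_sum_card_fiberwise hc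
  have h2 : D.card + (D.offDiag.filter (fun q => c q.1 = c q.2)).card
      = ((D ×ˢ D).filter (fun q => c q.1 = c q.2)).card := by
    rw [← Finset.diag_union_offDiag, Finset.filter_union, Finset.card_union_of_disjoint]
    · congr 1
      rw [Finset.filter_true_of_mem, Finset.diag_card]
      intro q hq
      rw [(Finset.mem_diag.1 hq).2]
    · exact Finset.disjoint_filter_filter (Finset.disjoint_diag_offDiag _)
  have h3 : ((D ×ˢ D).filter (fun q => c q.1 = c q.2)).card
      = ∑ y ∈ Cod, (D.filter (fun x => c x = y)).card ^ 2 := by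
    rw [Finset.card_eq_sum_card_fiberwise (f := fun q => c q.1) (t := Cod)]
    · apply Finset.sum_congr rfl
      intro y _
      rw [sq, ← Finset.card_product]
      congr 1
      ext q
      simp only [Finset.mem_filter, Finset.mem_product]
      constructor
      · rintro ⟨⟨⟨a, b⟩, e⟩, f⟩; exact ⟨⟨a, f⟩, b, by rw [← e, f]⟩
      · rintro ⟨⟨a, f⟩, b, g⟩; exact ⟨⟨⟨a, b⟩, by rw [f, g]⟩, f⟩
    · intro q hq
      simp only [Finset.coe_filter, Finset.mem_product, Set.mem_ofPred_eq] at hq
      exact hc _ hq.1.1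
  rw [h2, h3]
  conv_lhs => rw [h1]
  exact sq_sum_le_card_mul_sum_sq

theorem upper_main (n : ℕ) (hn : 2 ≤ n) (d : ℕ) (D : Finset (FreeGroup (Fin n)))
    (hDDC : DDC (D : Set (FreeGroup (Fin n))))
    (hD : ∀ g ∈ D, ∀ h ∈ D, FreeGroup.norm (g⁻¹ * h) ≤ d) :
    D.card ≤ 8 * n * (2 * n - 1) ^ (d / 3 + 2) := by
  classical
  set r := (d + 1) / 2 with hr
  set j := d / 3 with hj
  obtain ⟨g0, hg0⟩ := exists_center D d r (by omega) hD
  have hpos : 0 < n := by omega
  let c : FreeGroup (Fin n) → List (Fin n × Bool) := fun h => (g0⁻¹ * h).toWord.take j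
  have hc : ∀ x ∈ D, c x ∈ Words n j := by
    intro x _
    apply mem_Words hpos
    · exact List.length_take_le _ _
    · apply red_left (b := (g0⁻¹ * x).toWord.drop j)
      rw [List.take_append_drop]
      exact isReduced_toWord
  have key := card_sq_le D c (Words n j) hc
  have hpairs : (D.offDiag.filter (fun q => c q.1 = c q.2)).card ≤ (Words n (2 * (r - j))).card := by
    refine Finset.card_le_card_of_injOn (fun q => (q.1⁻¹ * q.2).toWord) ?_ ?_
    · rintro ⟨h1, h2⟩ hq
      rw [Finset.mem_coe, Finset.mem_filter, Finset.mem_offDiag] at hq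
      obtain ⟨⟨m1, m2, hne⟩, hcc⟩ := hq
      simp only [c] at hcc
      apply mem_Words hpos _ isReduced_toWord
      simp only
      have n1 := hg0 h1 m1
      have n2 := hg0 h2 m2
      rw [norm_eq_length] at n1 n2
      -- write both words
      have w1 := List.take_append_drop j (g0⁻¹ * h1).toWord
      have w2 := List.take_append_drop j (g0⁻¹ * h2).toWord
      rw [← hcc] at w2
      have hlen : ∀ x : FreeGroup (Fin n), j ≤ (g0⁻¹ * x).toWord.length ∨
          (g0⁻¹ * x).toWord.take j = (g0⁻¹ * x).toWord := by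
        intro x
        rcases le_total j (g0⁻¹ * x).toWord.length with h | h
        · exact Or.inl h
        · exact Or.inr (List.take_of_length_le h)
      have heq : h1⁻¹ * h2 = mk (invRev ((g0⁻¹ * h1).toWord.drop j) ++
          (g0⁻¹ * h2).toWord.drop j) := by
        have e1 : h1⁻¹ * h2 = (g0⁻¹ * h1)⁻¹ * (g0⁻¹ * h2) := by group
        rw [e1]
        have a1 : g0⁻¹ * h1 = mk ((g0⁻¹ * h1).toWord.take j) * mk ((g0⁻¹ * h1).toWord.drop j) := by
          rw [mul_mk, w1, mk_toWord]
        have a2 : g0⁻¹ * h2 = mk ((g0⁻¹ * h1).toWord.take j) * mk ((g0⁻¹ * h2).toWord.drop j) := by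
          rw [mul_mk, w2, mk_toWord]
        conv_lhs => rw [a1, a2]
        rw [← mul_mk, ← inv_mk]
        group
      have hn' : (h1⁻¹ * h2).toWord.length ≤
          ((g0⁻¹ * h1).toWord.length - j) + ((g0⁻¹ * h2).toWord.length - j) := by
        rw [← norm_eq_length, heq]
        refine FreeGroup.norm_mk_le.trans ?_
        rw [List.length_append, invRev_length, List.length_drop, List.length_drop]
      omega
    · rintro ⟨h1, h2⟩ hq ⟨h3, h4⟩ hq' he
      rw [Finset.mem_coe, Finset.mem_filter, Finset.mem_offDiag] at hq hq'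
      have := hDDC h1 hq.1.1 h2 hq.1.2.1 h3 hq'.1.1 h4 hq'.1.2.1 hq.1.2.2 hq'.1.2.2
        (toWord_injective he)
      rw [this.1, this.2]
  have c1 := card_Words hn j
  have c2 := card_Words hn (2 * (r - j))
  set k := 2 * n - 1 with hk
  have hk3 : 3 ≤ k := by omega
  set x := D.card with hx
  by_contra hcon
  push Not at hcon
  set y := 8 * n * k ^ (j + 2) with hy
  have e1 : x ^ 2 ≤ (4 * n * k ^ j) * (x + 4 * n * k ^ (2 * (r - j))) := by
    refine key.trans (Nat.mul_le_mul c1 (Nat.add_le_add_left (hpairs.trans c2) _))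
  have e2 : (4 * n * k ^ j) * (4 * n * k ^ (2 * (r - j))) ≤ 16 * n ^ 2 * k ^ (2 * j + 3) := by
    calc _ = 16 * n ^ 2 * k ^ (j + 2 * (r - j)) := by rw [pow_add]; ring
      _ ≤ _ := Nat.mul_le_mul_left _ (Nat.pow_le_pow_right (by omega) (by omega))
  have e3 : 2 * (4 * n * k ^ j) ≤ y := by
    rw [hy, pow_add]
    have : 1 ≤ k ^ 2 := Nat.one_le_pow _ _ (by omega)
    nlinarith [Nat.zero_le (8 * n * k ^ j)]
  have e4 : 4 * (16 * n ^ 2 * k ^ (2 * j + 3)) ≤ y * y := by
    have : y * y = 64 * n ^ 2 * (k ^ (2 * j + 3) * k) := by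
      rw [hy]; ring
    rw [this]
    have h1 : 1 ≤ k := by omega
    nlinarith [Nat.zero_le (64 * n ^ 2 * k ^ (2 * j + 3))]
  have hy0 : 0 < x := by omega
  have e5 : x ^ 2 ≤ (4 * n * k ^ j) * x + 16 * n ^ 2 * k ^ (2 * j + 3) := by
    calc x ^ 2 ≤ _ := e1
      _ = (4 * n * k ^ j) * x + (4 * n * k ^ j) * (4 * n * k ^ (2 * (r - j))) := by ring
      _ ≤ _ := Nat.add_le_add_left e2 _
  have e6 : 4 * x ^ 2 ≤ 2 * (y * x) + y * y := by nlinarith
  nlinarith

end Pool.Agent.Helper94.FDC
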